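import Pool.Agent.H211.CH.Stm2

/-!
# The common quotient (`S_END` of project CH, problem MP_1d703b_an), from `S_CAN`
-/

set_option autoImplicit false

open Polynomial

namespace Pool.Agent.H937.CH211

open Pool.Agent.H211.CH

universe u

section basics

variable {K : Type u} [Field K]

lemma it_zero (P : K[X]) : it P 0 = X := rfl

lemma it_succ (P : K[X]) (n : ℕ) : it P (n + 1) = P.comp (it P n) := by
  unfold it
  rw [Function.iterate_succ_apply']

lemma it_succ' (P : K[X]) (n : ℕ) : it P (n + 1) = (it P n).comp P := by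
  induction n with
  | zero => rw [it_succ, it_zero, comp_X, X_comp]
  | succ n ih => rw [it_succ, ih, ← comp_assoc, ← it_succ, ih]

lemma natDegree_it (P : K[X]) (n : ℕ) : (it P n).natDegree = P.natDegree ^ n := by
  induction n with
  | zero => rw [it_zero, natDegree_X, pow_zero]
  | succ n ih => rw [it_succ, natDegree_comp, ih, pow_succ, mul_comm]

lemma semi_it {P p A : K[X]} (h : P.comp p = p.comp A) (n : ℕ) :
    (it P n).comp p = p.comp (it A n) := by
  induction n with
  | zero => rw [it_zero, it_zero, X_comp, comp_X]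
  | succ n ih => rw [it_succ, comp_assoc, ih, ← comp_assoc, h, comp_assoc, ← it_succ]

/-- Affine polynomials have inverses. -/
lemma inv1 (L : K[X]) (h : L.natDegree = 1) :
    ∃ L' : K[X], L'.natDegree = 1 ∧ L.comp L' = X ∧ L'.comp L = X := by
  obtain ⟨a, ha, b, rfl⟩ := natDegree_eq_one.1 h
  have hC : (C a : K[X]) * C a⁻¹ = 1 := by rw [← C_mul, mul_inv_cancel₀ ha, C_1]
  refine ⟨C a⁻¹ * X + C (-(a⁻¹ * b)), natDegree_linear (inv_ne_zero ha), ?_, ?_⟩
  · simp only [add_comp, mul_comp, C_comp, X_comp, C_neg, C_mul]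
    linear_combination (X - C b) * hC
  · simp only [add_comp, mul_comp, C_comp, X_comp, C_neg, C_mul, neg_comp]
    linear_combination X * hC

lemma cancel_right {F G B : K[X]} (hB : 0 < B.natDegree) (h : F.comp B = G.comp B) : F = G := by
  have h1 : (F - G).comp B = 0 := by rw [sub_comp, h, sub_self]
  rcases comp_eq_zero_iff.1 h1 with h2 | ⟨-, h2⟩
  · exact sub_eq_zero.1 h2
  · rw [h2, natDegree_C] at hB
    exact absurd hB (lt_irrefl _)

lemma coef1 (B : K[X]) (d : ℕ) (hd : B.natDegree = d + 1) (t : K) :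
    (B.comp (X + C t)).coeff d = B.coeff d + (d + 1 : K) * B.coeff (d + 1) * t := by
  have h1 : B.comp (X + C t) = taylor t B := rfl
  rw [h1, taylor_coeff]
  have h2 : (hasseDeriv d B).natDegree ≤ 1 := by
    refine (natDegree_hasseDeriv_le B d).trans ?_
    omega
  rw [eval_eq_sum_range' (lt_of_le_of_lt h2 (by norm_num : 1 < 2))]
  rw [Finset.sum_range_succ, Finset.sum_range_one, hasseDeriv_coeff, hasseDeriv_coeff]
  have h3 : (1 + d).choose d = d + 1 := by
    rw [add_comm 1 d, Nat.choose_succ_self_right]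
  rw [h3, zero_add, Nat.choose_self, add_comm 1 d]
  push_cast
  ring

lemma comp_aff (B : K[X]) (z b : K) :
    B.comp (C z * X + C b) = (B.comp (X + C b)).comp (C z * X) := by
  rw [comp_assoc, add_comp, X_comp, C_comp]

lemma aff_coeff (B : K[X]) (d : ℕ) (m m' : K) (hd : d ≠ 0) :
    ((C m * X + C m').comp B).coeff d = m * B.coeff d := by
  rw [add_comp, mul_comp, C_comp, X_comp, C_comp, coeff_add, coeff_C_mul, coeff_C, if_neg hd,
    add_zero]

/-- An affine map which `B` semiconjugates to an affine map has no constant term. -/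
lemma no_const [CharZero K] (B : K[X]) (d : ℕ) (hd : B.natDegree = d + 2)
    (h0 : B.coeff (d + 1) = 0) (z b : K) (hz : z ≠ 0) (M : K[X]) (hM : M.natDegree = 1)
    (h : B.comp (C z * X + C b) = M.comp B) :
    b = 0 ∧ ∃ m' : K, M = C (z ^ (d + 2)) * X + C m' := by
  obtain ⟨m, hm, m', rfl⟩ := natDegree_eq_one.1 hM
  have hlead : B.coeff (d + 2) ≠ 0 := by
    rw [← hd]
    intro h1
    have h2 : B = 0 := leadingCoeff_eq_zero.1 h1
    rw [h2, natDegree_zero] at hd
    omega
  have e1 := congrArg (fun f : K[X] => f.coeff (d + 1)) h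
  beta_reduce at e1
  rw [comp_aff, comp_C_mul_X_coeff, coef1 B (d + 1) hd, aff_coeff _ _ _ _ (by omega), h0,
    zero_add, mul_zero] at e1
  have hb : b = 0 := by
    rcases mul_eq_zero.1 e1 with h3 | h3
    · rcases mul_eq_zero.1 h3 with h4 | h4
      · rcases mul_eq_zero.1 h4 with h5 | h5
        · exfalso
          have : ((d + 1 + 1 : ℕ) : K) = 0 := by push_cast; push_cast at h5; exact h5
          exact (Nat.cast_ne_zero.2 (by omega : d + 1 + 1 ≠ 0)) this
        · exact absurd h5 hlead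
      · exact h4
    · exact absurd h3 (pow_ne_zero _ hz)
  refine ⟨hb, m', ?_⟩
  subst hb
  have e2 := congrArg (fun f : K[X] => f.coeff (d + 2)) h
  beta_reduce at e2
  rw [C_0, add_zero, comp_C_mul_X_coeff, aff_coeff _ _ _ _ (by omega)] at e2
  have e3 : m = z ^ (d + 2) := by
    apply mul_right_cancel₀ hlead
    rw [← e2, mul_comm]
  rw [e3]

/-- The normalised case. -/
lemma core [CharZero K] (A B M M₂ M₃ : K[X]) (d : ℕ) (hd : B.natDegree = d + 2)
    (h0 : B.coeff (d + 1) = 0) (hM : M.natDegree = 1) (hM₂ : M₂.natDegree = 1)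
    (hM₃ : M₃.natDegree = 1) (hA : A = M.comp B) (h1 : B.comp M = M₂.comp B)
    (h2 : B.comp M₂ = M₃.comp B) (hne : B ≠ C (B.coeff (d + 2)) * X ^ (d + 2)) :
    ∃ (W : K[X]) (l : ℕ), 0 < l ∧ W.natDegree = d + 2 ∧ A ^ l = W.comp (X ^ l) ∧
      B ^ l = W.comp (X ^ l) := by
  obtain ⟨z, hz, b, hM'⟩ := natDegree_eq_one.1 hM
  rw [← hM'] at h1
  obtain ⟨hb, m', hM₂'⟩ := no_const B d hd h0 z b hz M₂ hM₂ h1
  subst hb
  rw [hM₂'] at h2
  obtain ⟨hm', -⟩ := no_const B d hd h0 (z ^ (d + 2)) m' (pow_ne_zero _ hz) M₃ hM₃ h2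
  subst hm'
  rw [hM₂', C_0, add_zero, add_zero, mul_comp, C_comp, X_comp] at h1
  have hA' : A = C z * B := by
    rw [hA, ← hM', C_0, add_zero, mul_comp, C_comp, X_comp]
  have hco : ∀ i, B.coeff i * z ^ i = z ^ (d + 2) * B.coeff i := by
    intro i
    have := congrArg (fun f : K[X] => f.coeff i) h1
    beta_reduce at this
    rw [comp_C_mul_X_coeff, coeff_C_mul] at this
    exact this
  obtain ⟨i, hi, hi0⟩ : ∃ i, i < d + 2 ∧ B.coeff i ≠ 0 := by
    by_contra hcon
    push Not at hcon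
    apply hne
    ext j
    rw [coeff_C_mul, coeff_X_pow]
    rcases lt_trichotomy j (d + 2) with hj | hj | hj
    · rw [if_neg (by omega), mul_zero, hcon j hj]
    · rw [if_pos hj, mul_one, hj]
    · rw [if_neg (by omega), mul_zero, coeff_eq_zero_of_natDegree_lt (by omega)]
  have hzi : z ^ (d + 2 - i) = 1 := by
    have h3 : z ^ i = z ^ (d + 2) := by
      apply mul_left_cancel₀ hi0
      rw [hco i, mul_comm]
    have h4 : z ^ (d + 2) = z ^ (d + 2 - i) * z ^ i := by
      rw [← pow_add]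
      congr 1
      omega
    rw [h4] at h3
    have h5 : (z ^ (d + 2 - i)) * z ^ i = 1 * z ^ i := by rw [one_mul]; exact h3.symm
    exact mul_right_cancel₀ (pow_ne_zero _ hz) h5
  have hfin : IsOfFinOrder z := isOfFinOrder_iff_pow_eq_one.2 ⟨d + 2 - i, by omega, hzi⟩
  have hl : 0 < orderOf z := hfin.orderOf_pos
  have hzl : z ^ orderOf z = 1 := pow_orderOf_eq_one z
  have hBl : (B ^ orderOf z).comp (C z * X) = B ^ orderOf z := by
    rw [pow_comp, h1, mul_pow, ← C_pow, ← pow_mul, mul_comm (d + 2), pow_mul, hzl, one_pow, C_1,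
      one_mul]
  have hzero : ∀ j, ¬ orderOf z ∣ j → (B ^ orderOf z).coeff j = 0 := by
    intro j hj
    have := congrArg (fun f : K[X] => f.coeff j) hBl
    beta_reduce at this
    rw [comp_C_mul_X_coeff] at this
    by_contra hcon
    apply hj
    rw [orderOf_dvd_iff_pow_eq_one]
    apply mul_left_cancel₀ hcon
    rw [this, mul_one]
  have hW : B ^ orderOf z = (contract (orderOf z) (B ^ orderOf z)).comp (X ^ orderOf z) := by
    rw [← expand_eq_comp_X_pow]
    ext j
    rw [coeff_expand hl]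
    by_cases hj : orderOf z ∣ j
    · rw [if_pos hj, coeff_contract hl.ne', Nat.div_mul_cancel hj]
    · rw [if_neg hj, hzero j hj]
  refine ⟨contract (orderOf z) (B ^ orderOf z), orderOf z, hl, ?_, ?_, hW⟩
  · have h6 := congrArg natDegree hW
    rw [natDegree_pow, natDegree_comp, natDegree_X_pow, hd, mul_comm] at h6
    exact (Nat.eq_of_mul_eq_mul_right hl h6).symm
  · rw [hA', mul_pow, ← C_pow, hzl, C_1, one_mul]
    exact hW

/-- Passage to the normalised case. -/
lemma norm_case [CharZero K] (A B M M₂ M₃ : K[X]) (d : ℕ) (hd : B.natDegree = d + 2)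
    (hM : M.natDegree = 1) (hM₂ : M₂.natDegree = 1) (hM₃ : M₃.natDegree = 1)
    (hA : A = M.comp B) (h1 : B.comp M = M₂.comp B)
    (h2 : B.comp M₂ = M₃.comp B) (hne : ¬ Pow B) :
    ∃ W : K[X], W.natDegree = d + 2 ∧ Semi A W ∧ Semi B W := by
  have hlead : B.coeff (d + 2) ≠ 0 := by
    rw [← hd]
    intro h1
    have h2 : B = 0 := leadingCoeff_eq_zero.1 h1
    rw [h2, natDegree_zero] at hd
    omega
  have hd2 : (d + 2 : K) ≠ 0 := by
    have : ((d + 2 : ℕ) : K) ≠ 0 := Nat.cast_ne_zero.2 (by omega)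
    push_cast at this
    exact this
  set t : K := -(B.coeff (d + 1) / ((d + 2 : K) * B.coeff (d + 2))) with ht
  -- the translations
  set s : K[X] := X + C t with hs
  set s' : K[X] := X - C t with hs'
  have hss' : s.comp s' = X := by rw [hs, hs', add_comp, X_comp, C_comp]; ring
  have hs's : s'.comp s = X := by rw [hs, hs', sub_comp, X_comp, C_comp]; ring
  have hsd : s.natDegree = 1 := natDegree_X_add_C t
  have hs'd : s'.natDegree = 1 := natDegree_X_sub_C t
  have conj : ∀ F G : K[X], (s'.comp (F.comp s)).comp (s'.comp (G.comp s)) =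
      s'.comp ((F.comp G).comp s) := by
    intro F G
    calc (s'.comp (F.comp s)).comp (s'.comp (G.comp s))
        = s'.comp (F.comp ((s.comp s').comp (G.comp s))) := by simp only [comp_assoc]
      _ = s'.comp ((F.comp G).comp s) := by rw [hss', X_comp, comp_assoc]
  have cdeg : ∀ F : K[X], (s'.comp (F.comp s)).natDegree = F.natDegree := by
    intro F
    rw [natDegree_comp, natDegree_comp, hsd, hs'd, mul_one, one_mul]
  have ccoef : ∀ (F : K[X]) (j : ℕ), j ≠ 0 → (s'.comp (F.comp s)).coeff j = (F.comp s).coeff j := by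
    intro F j hj
    rw [hs', sub_comp, X_comp, C_comp, coeff_sub, coeff_C, if_neg hj, sub_zero]
  have hB0 : (s'.comp (B.comp s)).coeff (d + 1) = 0 := by
    rw [ccoef _ _ (by omega), hs, coef1 B (d + 1) hd, ht]
    push_cast
    have : ((d : K) + 1 + 1) = (d + 2 : K) := by ring
    rw [this]
    field_simp
    ring
  have hne' : s'.comp (B.comp s) ≠
      C ((s'.comp (B.comp s)).coeff (d + 2)) * X ^ (d + 2) := by
    intro hcon
    apply hne
    refine ⟨t, (s'.comp (B.comp s)).coeff (d + 2), ?_⟩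
    have h3 : B = s.comp ((s'.comp (B.comp s)).comp s') := by
      calc B = (s.comp s').comp (B.comp (s.comp s')) := by rw [hss', X_comp, comp_X]
        _ = s.comp ((s'.comp (B.comp s)).comp s') := by simp only [comp_assoc]
    have h4 : (s'.comp (B.comp s)).comp s' =
        C ((s'.comp (B.comp s)).coeff (d + 2)) * (X - C t) ^ (d + 2) := by
      conv_lhs => rw [hcon]
      rw [mul_comp, C_comp, pow_comp, X_comp]
    rw [hd]
    conv_lhs => rw [h3, h4]
    rw [hs, add_comp, X_comp, C_comp]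
    ring
  obtain ⟨W, l, hl, hWd, hWA, hWB⟩ := core (s'.comp (A.comp s)) (s'.comp (B.comp s))
    (s'.comp (M.comp s)) (s'.comp (M₂.comp s)) (s'.comp (M₃.comp s)) d (by rw [cdeg, hd]) hB0
    (by rw [cdeg, hM]) (by rw [cdeg, hM₂]) (by rw [cdeg, hM₃]) (by rw [conj, hA])
    (by rw [conj, conj, h1]) (by rw [conj, conj, h2]) hne'
  have key : ∀ F : K[X], (s'.comp (F.comp s)) ^ l = W.comp (X ^ l) → Semi F W := by
    intro F hF
    refine ⟨(X ^ l : K[X]).comp s', ?_, ?_⟩
    · rw [natDegree_comp, natDegree_X_pow, hs'd, mul_one]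
      exact hl
    · have h5 : (s'.comp F) = (s'.comp (F.comp s)).comp s' := by
        calc s'.comp F = s'.comp (F.comp (s.comp s')) := by rw [hss', comp_X]
          _ = (s'.comp (F.comp s)).comp s' := by simp only [comp_assoc]
      calc ((X ^ l : K[X]).comp s').comp F = (X ^ l : K[X]).comp (s'.comp F) := comp_assoc _ _ _
        _ = ((X ^ l : K[X]).comp (s'.comp (F.comp s))).comp s' := by
            rw [h5]
            simp only [comp_assoc]
        _ = ((s'.comp (F.comp s)) ^ l).comp s' := by rw [pow_comp, X_comp]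
        _ = W.comp ((X ^ l : K[X]).comp s') := by rw [hF, comp_assoc]
  exact ⟨W, hWd, key A hWA, key B hWB⟩

end basics

/-- **The common quotient**, from cancellation. -/
theorem t_END {K : Type u} [Field K] [IsAlgClosed K] [CharZero K] (hCAN : S_CAN K) : S_END K := by
  intro P Q R A B p q n hP hPQ hn hp hq hpR hqR hPA hQB hB
  have hdA : A.natDegree = P.natDegree := by
    have h := congrArg natDegree hPA
    rw [natDegree_comp, natDegree_comp, mul_comm] at h
    exact (Nat.eq_of_mul_eq_mul_left hp h).symm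
  have hdB : B.natDegree = P.natDegree := by
    have h := congrArg natDegree hQB
    rw [natDegree_comp, natDegree_comp, mul_comm, ← hPQ] at h
    exact (Nat.eq_of_mul_eq_mul_left hq h).symm
  have hA0 : 0 < A.natDegree := by omega
  have hB0 : 0 < B.natDegree := by omega
  have hitA : ∀ j, 0 < (it A j).natDegree := fun j => by rw [natDegree_it]; exact pow_pos hA0 j
  have hitB : ∀ j, 0 < (it B j).natDegree := fun j => by rw [natDegree_it]; exact pow_pos hB0 j
  have hdR : R.natDegree = P.natDegree ^ n := by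
    have h := congrArg natDegree hpR
    rw [natDegree_comp, natDegree_comp, natDegree_it, mul_comm _ p.natDegree] at h
    exact Nat.eq_of_mul_eq_mul_left hp h
  -- `A^n = L ∘ R`, `B^n = L' ∘ R`
  obtain ⟨L, hL, hAR, hpL⟩ := hCAN p (it A n) p R (hitA n) (by rw [natDegree_it, hdR, hdA]) hp
    (by rw [hpR, semi_it hPA])
  obtain ⟨L', hL', hBR, hqL⟩ := hCAN q (it B n) q R (hitB n) (by rw [natDegree_it, hdR, hdB]) hq
    (by rw [hqR, semi_it hQB])
  obtain ⟨N, hN, hN1, hN2⟩ := inv1 L' hL'
  have hR : R = N.comp (it B n) := by rw [hBR, ← comp_assoc, hN2, X_comp]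
  obtain ⟨T, hTdef⟩ : ∃ T, T = L.comp N := ⟨_, rfl⟩
  have hT1 : T.natDegree = 1 := by rw [hTdef, natDegree_comp, hL, hN]
  have hAT : it A n = T.comp (it B n) := by rw [hAR, hR, hTdef, comp_assoc]
  obtain ⟨k, rfl⟩ : ∃ k, n = k + 2 := ⟨n - 2, by omega⟩
  -- `A = M ∘ B`
  obtain ⟨M, hM, hAM, -⟩ := hCAN (it A (k + 1)) A (T.comp (it B (k + 1))) B hA0
    (by rw [hdA, hdB]) (hitA _) (by rw [← it_succ', hAT, it_succ' B, comp_assoc])
  -- `A ∘ L = L₁ ∘ A`, `B ∘ L' = L₂ ∘ B`
  obtain ⟨L₁, hL₁, hAL, -⟩ := hCAN p (A.comp L) p A (by rw [natDegree_comp, hL, mul_one]; exact hA0)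
    (by rw [natDegree_comp, hL, mul_one]) hp
    (by rw [← comp_assoc, ← hPA, comp_assoc, hpL])
  obtain ⟨L₂, hL₂, hBL, -⟩ := hCAN q (B.comp L') q B
    (by rw [natDegree_comp, hL', mul_one]; exact hB0)
    (by rw [natDegree_comp, hL', mul_one]) hq
    (by rw [← comp_assoc, ← hQB, comp_assoc, hqL])
  obtain ⟨Mi, hMi, hMi1, hMi2⟩ := inv1 M hM
  obtain ⟨L₂i, hL₂i, hL₂i1, hL₂i2⟩ := inv1 L₂ hL₂
  obtain ⟨Ti, hTi, hTi1, hTi2⟩ := inv1 T hT1
  have hBL1 : B.comp L = (Mi.comp (L₁.comp M)).comp B := by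
    calc B.comp L = (Mi.comp M).comp (B.comp L) := by rw [hMi2, X_comp]
      _ = Mi.comp ((M.comp B).comp L) := by simp only [comp_assoc]
      _ = Mi.comp (L₁.comp A) := by rw [← hAM, hAL]
      _ = (Mi.comp (L₁.comp M)).comp B := by rw [hAM]; simp only [comp_assoc]
  have hBN : B.comp N = L₂i.comp B := by
    calc B.comp N = (L₂i.comp L₂).comp (B.comp N) := by rw [hL₂i2, X_comp]
      _ = L₂i.comp ((L₂.comp B).comp N) := by simp only [comp_assoc]
      _ = L₂i.comp ((B.comp L').comp N) := by rw [← hBL]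
      _ = L₂i.comp (B.comp (L'.comp N)) := by simp only [comp_assoc]
      _ = L₂i.comp B := by rw [hN1, comp_X]
  obtain ⟨T', hT'⟩ : ∃ T', T' = (Mi.comp (L₁.comp M)).comp L₂i := ⟨_, rfl⟩
  have hBT : B.comp T = T'.comp B := by
    calc B.comp T = (B.comp L).comp N := by rw [hTdef, comp_assoc]
      _ = (Mi.comp (L₁.comp M)).comp (B.comp N) := by rw [hBL1, comp_assoc]
      _ = T'.comp B := by
          rw [hBN, hT']
          simp only [comp_assoc]
  -- `A^(n+1)` in two ways
  have h2 : T.comp ((it B (k + 2)).comp M) = (M.comp T').comp (it B (k + 2)) := by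
    apply cancel_right hB0
    calc (T.comp ((it B (k + 2)).comp M)).comp B
        = (T.comp (it B (k + 2))).comp (M.comp B) := by simp only [comp_assoc]
      _ = (it A (k + 2)).comp A := by rw [← hAT, ← hAM]
      _ = A.comp (it A (k + 2)) := by rw [← it_succ', it_succ]
      _ = (M.comp B).comp (T.comp (it B (k + 2))) := by rw [← hAT, ← hAM]
      _ = M.comp ((B.comp T).comp (it B (k + 2))) := by simp only [comp_assoc]
      _ = (M.comp T').comp (B.comp (it B (k + 2))) := by rw [hBT]; simp only [comp_assoc]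
      _ = ((M.comp T').comp (it B (k + 2))).comp B := by
          rw [← it_succ, it_succ']
          simp only [comp_assoc]
  have h3 : (it B (k + 2)).comp M = (Ti.comp (M.comp T')).comp (it B (k + 2)) := by
    calc (it B (k + 2)).comp M = (Ti.comp T).comp ((it B (k + 2)).comp M) := by
          rw [hTi2, X_comp]
      _ = Ti.comp (T.comp ((it B (k + 2)).comp M)) := by simp only [comp_assoc]
      _ = (Ti.comp (M.comp T')).comp (it B (k + 2)) := by rw [h2]; simp only [comp_assoc]
  obtain ⟨S, hS⟩ : ∃ S, S = Ti.comp (M.comp T') := ⟨_, rfl⟩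
  rw [← hS] at h3
  obtain ⟨M₂, hM₂, hBM, hM₂'⟩ := hCAN (it B (k + 1)) (B.comp M) (S.comp (it B (k + 1))) B
    (by rw [natDegree_comp, hM, mul_one]; exact hB0) (by rw [natDegree_comp, hM, mul_one])
    (hitB _) (by rw [← comp_assoc, ← it_succ', h3, it_succ' B (k + 1), comp_assoc])
  obtain ⟨M₃, hM₃, hBM₂, -⟩ := hCAN (it B k) (B.comp M₂) (S.comp (it B k)) B
    (by rw [natDegree_comp, hM₂, mul_one]; exact hB0) (by rw [natDegree_comp, hM₂, mul_one])
    (hitB _) (by rw [← comp_assoc, ← it_succ', hM₂', it_succ' B k, comp_assoc])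
  obtain ⟨d, hd⟩ : ∃ d, P.natDegree = d + 2 := ⟨P.natDegree - 2, by omega⟩
  obtain ⟨W, hW, h4, h5⟩ := norm_case A B M M₂ M₃ d (by rw [hdB, hd]) hM hM₂ hM₃ hAM hBM hBM₂ hB
  exact ⟨W, by rw [hW, hd], h4, h5⟩

end Pool.Agent.H937.CH211
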